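import Pool.Agent.Run7.h630.ML.Iface

/-!
# Riemann sums of continuous functions with compact support in the plane
-/

open MeasureTheory Filter Topology Set
open Run7.h630.ML (E2 pt)

namespace Run7.h796.ML

noncomputable section

/-- the index of the square of side `1/l` that contains `y` -/
def idx (l : ℕ) (y : E2) : ℤ × ℤ := (⌊(l : ℝ) * y 0⌋, ⌊(l : ℝ) * y 1⌋)

/-- the lower left corner of the square of side `1/l` that contains `y` -/
def cor (l : ℕ) (y : E2) : E2 := pt l (idx l y)

lemma meas_coord (i : Fin 2) : Measurable (fun y : E2 => y i) := by fun_prop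

lemma idx_meas (l : ℕ) : Measurable (idx l) := by
  unfold idx
  exact ((meas_coord 0).const_mul _).floor.prodMk ((meas_coord 1).const_mul _).floor

lemma idx_preimage (l : ℕ) (hl : 0 < l) (x : ℤ × ℤ) :
    idx l ⁻¹' {x} = (@WithLp.ofLp 2 (Fin 2 → ℝ)) ⁻¹' (Set.pi univ
      (fun i : Fin 2 => Ico ((![(x.1 : ℝ), (x.2 : ℝ)] i) / l) ((![(x.1 : ℝ), (x.2 : ℝ)] i + 1) / l))) := by
  have hl' : (0 : ℝ) < l := by exact_mod_cast hl
  ext y
  simp only [mem_preimage, mem_singleton_iff, idx, Set.mem_pi, mem_univ, forall_true_left,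
    Fin.forall_fin_two, Prod.ext_iff, Int.floor_eq_iff, mem_Ico, Matrix.cons_val_zero,
    Matrix.cons_val_one]
  rw [div_le_iff₀ hl', lt_div_iff₀ hl', div_le_iff₀ hl', lt_div_iff₀ hl']
  simp only [mul_comm (l : ℝ)]

lemma vol_idx (l : ℕ) (hl : 0 < l) (x : ℤ × ℤ) :
    volume (idx l ⁻¹' {x}) = ENNReal.ofReal (((l : ℝ) ^ 2)⁻¹) := by
  have hl' : (0 : ℝ) < l := by exact_mod_cast hl
  rw [idx_preimage l hl x, (PiLp.volume_preserving_ofLp (Fin 2)).measure_preimage
    (MeasurableSet.univ_pi fun i => measurableSet_Ico).nullMeasurableSet, Real.volume_pi_Ico]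
  rw [Fin.prod_univ_two, ← ENNReal.ofReal_mul]
  · congr 1
    simp only [Matrix.cons_val_zero, Matrix.cons_val_one]
    field_simp
    ring
  · simp only [Matrix.cons_val_zero]
    have : ((x.1 : ℝ) + 1) / l - x.1 / l = 1 / l := by field_simp; ring
    rw [this]; positivity

/-- the distance from a point to the corner of its square -/
lemma cor_coord (l : ℕ) (hl : 0 < l) (y : E2) (i : Fin 2) : |cor l y i - y i| ≤ 1 / l := by
  have hl' : (0 : ℝ) < l := by exact_mod_cast hl
  have key : ∀ t : ℝ, |(⌊(l : ℝ) * t⌋ : ℝ) / l - t| ≤ 1 / l := by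
    intro t
    have h1 := Int.floor_le ((l : ℝ) * t)
    have h2 := Int.lt_floor_add_one ((l : ℝ) * t)
    have e : (⌊(l : ℝ) * t⌋ : ℝ) / l - t = (⌊(l : ℝ) * t⌋ - l * t) / l := by field_simp
    rw [e, abs_div, abs_of_pos hl']
    apply div_le_div_of_nonneg_right _ hl'.le
    rw [abs_le]; constructor <;> linarith
  fin_cases i
  · simpa [cor, pt, idx] using key (y 0)
  · simpa [cor, pt, idx] using key (y 1)

lemma cor_dist (l : ℕ) (hl : 0 < l) (y : E2) : ‖cor l y - y‖ ≤ 2 / l := by
  have hl' : (0 : ℝ) < l := by exact_mod_cast hl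
  rw [EuclideanSpace.norm_eq]
  apply Real.sqrt_le_iff.2
  refine ⟨by positivity, ?_⟩
  rw [Fin.sum_univ_two]
  have h0 := cor_coord l hl y 0
  have h1 := cor_coord l hl y 1
  have a0 : ‖(cor l y - y) 0‖ ^ 2 ≤ (1 / l : ℝ) ^ 2 := by
    rw [Real.norm_eq_abs]
    exact pow_le_pow_left₀ (abs_nonneg _) (by simpa using h0) 2
  have a1 : ‖(cor l y - y) 1‖ ^ 2 ≤ (1 / l : ℝ) ^ 2 := by
    rw [Real.norm_eq_abs]
    exact pow_le_pow_left₀ (abs_nonneg _) (by simpa using h1) 2
  have e : (2 / l : ℝ) ^ 2 = 4 * (1 / l) ^ 2 := by ring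
  rw [e]
  nlinarith [sq_nonneg (1 / l : ℝ)]

lemma cor_tendsto (y : E2) : Tendsto (fun l : ℕ => cor l y) atTop (𝓝 y) := by
  rw [tendsto_iff_norm_sub_tendsto_zero]
  have h : Tendsto (fun l : ℕ => (2 : ℝ) / l) atTop (𝓝 0) := tendsto_const_div_atTop_nhds_zero_nat 2
  refine squeeze_zero' (Eventually.of_forall fun l => norm_nonneg _) ?_ h
  filter_upwards [eventually_gt_atTop 0] with l hl
  exact cor_dist l hl y

lemma cor_meas (l : ℕ) (f : E2 → ℂ) : Measurable (fun y => f (cor l y)) := by
  have : (fun y => f (cor l y)) = (fun x : ℤ × ℤ => f (pt l x)) ∘ idx l := rfl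
  rw [this]
  exact (measurable_of_countable _).comp (idx_meas l)

lemma cor_bound (f : E2 → ℂ) (hf : Continuous f) (hc : HasCompactSupport f) :
    ∃ b : E2 → ℝ, Integrable b ∧ ∀ l : ℕ, 0 < l → ∀ y, ‖f (cor l y)‖ ≤ b y := by
  obtain ⟨M, hM⟩ := hf.bounded_above_of_compact_support hc
  obtain ⟨R, hR⟩ := hc.isCompact.isBounded.subset_closedBall (0 : E2)
  refine ⟨indicator (Metric.closedBall (0 : E2) (R + 2)) (fun _ => M), ?_, ?_⟩
  · rw [integrable_indicator_iff Metric.isClosed_closedBall.measurableSet]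
    exact integrableOn_const (measure_closedBall_lt_top.ne)
  · intro l hl y
    by_cases h : f (cor l y) = 0
    · rw [h, norm_zero]
      apply indicator_nonneg
      intro _ _
      exact (norm_nonneg _).trans (hM 0)
    · have hm : cor l y ∈ Metric.closedBall (0 : E2) R := hR (subset_tsupport f h)
      have hy : y ∈ Metric.closedBall (0 : E2) (R + 2) := by
        rw [mem_closedBall_zero_iff] at hm ⊢
        have h1 := cor_dist l hl y
        have h2 : (2 : ℝ) / l ≤ 2 := by
          apply div_le_self (by norm_num)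
          exact_mod_cast hl
        have h3 : ‖y‖ ≤ ‖cor l y‖ + ‖cor l y - y‖ := by
          have : y = cor l y - (cor l y - y) := by abel
          calc ‖y‖ = ‖cor l y - (cor l y - y)‖ := by rw [← this]
            _ ≤ _ := norm_sub_le _ _
        linarith
      rw [indicator_of_mem hy]
      exact hM _

lemma cor_integral (f : E2 → ℂ) (hf : Continuous f) (hc : HasCompactSupport f) (l : ℕ) (hl : 0 < l) :
    ∫ y, f (cor l y) = ((l : ℂ) ^ 2)⁻¹ * ∑' x : ℤ × ℤ, f (pt l x) := by
  obtain ⟨b, hb, hbl⟩ := cor_bound f hf hc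
  have hint : Integrable (fun y => f (cor l y)) :=
    hb.mono' (cor_meas l f).aestronglyMeasurable (Eventually.of_forall (hbl l hl))
  have hU : (⋃ x : ℤ × ℤ, idx l ⁻¹' {x}) = univ := by
    rw [← preimage_iUnion, iUnion_of_singleton, preimage_univ]
  have hs := hasSum_integral_iUnion (μ := (volume : Measure E2)) (f := fun y => f (cor l y))
    (s := fun x : ℤ × ℤ => idx l ⁻¹' {x})
    (fun x => idx_meas l (measurableSet_singleton x))
    (fun x y hxy => by
      apply Disjoint.preimage
      simpa using hxy)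
    (by rw [hU]; exact hint.integrableOn)
  rw [hU, setIntegral_univ] at hs
  have hterm : ∀ x : ℤ × ℤ, ∫ y in idx l ⁻¹' {x}, f (cor l y) = ((l : ℂ) ^ 2)⁻¹ * f (pt l x) := by
    intro x
    have e : ∫ y in idx l ⁻¹' {x}, f (cor l y) = ∫ y in idx l ⁻¹' {x}, f (pt l x) := by
      apply setIntegral_congr_fun (idx_meas l (measurableSet_singleton x))
      intro y hy
      have : idx l y = x := hy
      simp only [cor, this]
    rw [e, setIntegral_const, Measure.real, vol_idx l hl x, ENNReal.toReal_ofReal (by positivity)]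
    rw [Complex.real_smul]
    push_cast
    rfl
  rw [← hs.tsum_eq, ← tsum_mul_left]
  exact tsum_congr hterm

theorem t_RIE : Run7.h630.ML.S_RIE := by
  intro f hf hc
  obtain ⟨b, hb, hbl⟩ := cor_bound f hf hc
  have h : Tendsto (fun l : ℕ => ∫ y, f (cor l y)) atTop (𝓝 (∫ y, f y)) := by
    apply tendsto_integral_filter_of_dominated_convergence b
    · exact Eventually.of_forall fun l => (cor_meas l f).aestronglyMeasurable
    · filter_upwards [eventually_gt_atTop 0] with l hl
      exact Eventually.of_forall (hbl l hl)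
    · exact hb
    · exact Eventually.of_forall fun y => (hf.tendsto y).comp (cor_tendsto y)
  refine h.congr' ?_
  filter_upwards [eventually_gt_atTop 0] with l hl
  exact cor_integral f hf hc l hl

end

end Run7.h796.ML
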